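import Pool.Agent.T9h88.IOE.Main

/-!
# `𝓓(≠*, 2^(n!))` and `𝓓(≠*, 2^(2^n))` are equal

Call a sequence of finite sets `L_k` *capturing with widths `s k` and bound `b`* if `|L_k| ≤ s k`
and every computable `g < b` satisfies `g k ∈ L_k` for infinitely many `k`. If `A` computes a
capturing sequence of sets of pairs with widths `N k ^ 2` and bound `b` (for both coordinates), then
it computes a capturing sequence of widths `N k` and bound `b`: let `H_k` be the set of the (at most
`N k`) first coordinates that occur at least `N k` times; if the sequence `H_k` is not capturing,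
then there is a computable `z < b` with `z k ∉ H_k` for almost all `k`, so that fewer than `N k`
elements of `L_k` have the first coordinate `z k`, and their second coordinates form a capturing
sequence. A function that is infinitely often equal to every computable function below `2^(2^n)`
yields a capturing sequence of widths `(2^k)^(2^j)` for large `j` and iterated pairs of codes of
functions on `[0, 2^(k+1))`; after `j` steps the width is `2^k`, the number of arguments in
`[2^k, 2^(k+1))`.
-/

namespace Pool.Agent.Results.MP_1f9696_lc.ClassesCoincide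

open Pool.T9h88.IOE

/-- The characteristic function of `A`, as an oracle. -/
noncomputable def oracle (A : Set ℕ) : ℕ →. ℕ := by
  classical exact fun n => Part.some (if n ∈ A then 1 else 0)

/-- `A` computes `x`, that is `x ≤_T A`. -/
def Computes (A : Set ℕ) (x : ℕ → ℕ) : Prop :=
  TuringReducible (fun n => Part.some (x n)) (oracle A)

/-- `𝓓(≠*, h)`: the oracles that compute a function which is infinitely often equal to every
computable function below `h`. -/
def DNeq (h : ℕ → ℕ) : Set (Set ℕ) :=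
  {A | ∃ x : ℕ → ℕ, Computes A x ∧
    ∀ y : ℕ → ℕ, Computable y → (∀ n, y n < h n) → {n | x n = y n}.Infinite}

theorem general {h₁ h₂ : ℕ → ℕ} (hpos : ∀ n, 0 < h₁ n)
    (hlow : ∃ a : ℕ, ∀ m n : ℕ, m ^ a + a ≤ n → 2 ^ (2 ^ m) ≤ h₁ n)
    (hupp : ∃ c : ℕ, ∀ n : ℕ, h₂ n ≤ 2 ^ (2 ^ (n ^ c + c))) : DNeq h₁ ⊆ DNeq h₂ := by
  rintro A ⟨x, hx, h⟩
  obtain ⟨x', hx', h'⟩ := transfer (O := {oracle A}) hpos hlow hupp (RecursiveIn.iff_nat.1 hx) h
  exact ⟨x', RecursiveIn.iff_nat.2 hx', h'⟩

theorem two_pow_le_factorial (m : ℕ) : 2 ^ m ≤ (m + 1).factorial := by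
  induction m with
  | zero => simp
  | succ m ih =>
    rw [Nat.factorial_succ, pow_succ, mul_comm]
    exact Nat.mul_le_mul (by omega) ih

theorem factorial_le (n : ℕ) : n.factorial ≤ 2 ^ (n ^ 2 + 2) := by
  calc n.factorial ≤ n ^ n := Nat.factorial_le_pow n
    _ ≤ (2 ^ n) ^ n := Nat.pow_le_pow_left Nat.lt_two_pow_self.le n
    _ = 2 ^ (n ^ 2) := by rw [← pow_mul, pow_two]
    _ ≤ _ := Nat.pow_le_pow_right (by norm_num) (by omega)

/-- The classes `𝓓(≠*, 2^(n!))` and `𝓓(≠*, 2^(2^n))` are equal. More generally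
`𝓓(≠*, h₁) ⊆ 𝓓(≠*, h₂)` whenever `h₁` is positive, `log log h₁` grows at least like `n^ε` for some
`ε > 0`, and `log log h₂` is bounded by a polynomial. -/
theorem result :
    DNeq (fun n => 2 ^ n.factorial) = DNeq (fun n => 2 ^ (2 ^ n)) ∧
    ∀ h₁ h₂ : ℕ → ℕ, (∀ n, 0 < h₁ n) →
      (∃ a : ℕ, ∀ m n : ℕ, m ^ a + a ≤ n → 2 ^ (2 ^ m) ≤ h₁ n) →
      (∃ c : ℕ, ∀ n : ℕ, h₂ n ≤ 2 ^ (2 ^ (n ^ c + c))) → DNeq h₁ ⊆ DNeq h₂ := by
  refine ⟨Set.Subset.antisymm (general ?_ ?_ ?_) (general ?_ ?_ ?_),
    fun h₁ h₂ hpos hlow hupp => general hpos hlow hupp⟩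
  · intro n
    positivity
  · refine ⟨1, fun m n hn => Nat.pow_le_pow_right (by norm_num) ?_⟩
    exact (two_pow_le_factorial m).trans (Nat.factorial_le (by simpa using hn))
  · refine ⟨1, fun n => Nat.pow_le_pow_right (by norm_num) (Nat.pow_le_pow_right (by norm_num) ?_)⟩
    simp
  · intro n
    positivity
  · refine ⟨1, fun m n hn => Nat.pow_le_pow_right (by norm_num)
      (Nat.pow_le_pow_right (by norm_num) ?_)⟩
    rw [pow_one] at hn
    omega
  · exact ⟨2, fun n => Nat.pow_le_pow_right (by norm_num) (factorial_le n)⟩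

end Pool.Agent.Results.MP_1f9696_lc.ClassesCoincide
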